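import Pool.Agent.U416.WR.Pos
import Pool.Agent.U416.GE.Fin

/-! # Waring's problem relative to dense sets: almost all exponents

We say that `s` `k`-th powers are enough if for any two sets `B₁`, `B₂` of natural numbers of positive lower density
every large `n` is `b₁ + b₂ + x₁^k + ... + x_s^k` with `b₁ ∈ B₁`, `b₂ ∈ B₂` and positive integers `x₁`, ..., `x_s`. For `k = p - 1`, `p` prime, at least `p - 1`
powers are needed, since they are `0` or `1` modulo `p`, and for `k = 2 ^ m` even `4 k` powers. We prove: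

(1) for every `ε > 0` and all exponents `k` outside of a set of density zero already `k ^ ε` powers are enough;
(2) for every `ε > 0` this holds for all but `O (N / log ^ 2 N)` of the prime exponents up to `N`;
(3) the precise reason: for every `ε > 0` there is `T` such that, for all large `k`, any `s ≥ k ^ ε` powers are enough
unless `k` has a divisor `D > s / 4` of the form `D = φ (q) / t` with `t < T` and a prime power `q`;
(4) conversely, if `k` has such a divisor `D`, then at least `D ^ (1 / t) - 1` powers are needed;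
(5) for almost all `k`: if the sums of `t` `k`-th powers have positive lower density (for any `t`), then every large
integer is a sum of `2 t + k ^ ε` `k`-th powers, and almost all integers are sums of `t + k ^ ε`; in particular (6)
`G(k) ≤ 4 k` holds for almost all of the `k` for which the sums of `(2 - ε) k` `k`-th powers have positive lower density.
All powers are powers of positive integers.

The same holds for `B + {x₁^k + ... + x_s^k}` having density one for every set `B` of positive lower density.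

Proof. By the local–global principle of `Pool.Agent.U416.WR` only residue classes modulo prime powers matter. The
subgroup `H` of the `k`-th powers modulo `p ^ j` has differences of elements which are units or zero, and the growth
argument of Glibichuk and Konyagin gives `k ^ ε` summands if `H` has at least `T` elements modulo `p ^ (τ + 1)`,
`p ^ τ ∥ k`; if it has `t < T` elements, `D = φ (p ^ (τ + 1)) / t` divides `k`. Almost all integers have no divisor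
`D ≥ k ^ ε` of this form: this is proved by a first moment over the integers with the typical number of prime
divisors in a fixed large set of primes, with the Brun–Titchmarsh inequality (compare Erdős and Wagstaff for the
divisors `p - 1`).
-/

set_option autoImplicit false

namespace Pool.Agent.Results.MP_ee77ae_nt.AlmostAllExponents

open Finset Filter Topology Pool.Agent.U416.WR

/-- `B` has at least `c n` elements below `n`, for all large `n`. -/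
def LowerDensity (c : ℝ) (B : Set ℕ) : Prop := ∀ᶠ n : ℕ in atTop, c * n ≤ ((B ∩ Set.Iio n).ncard : ℝ)

/-- `B` has positive lower density. -/
def PosLower (B : Set ℕ) : Prop := ∃ c : ℝ, 0 < c ∧ LowerDensity c B

/-- For any two sets `B₁`, `B₂` of positive lower density, every large number is the sum of an element of `B₁`,
an element of `B₂` and `s` `k`-th powers of positive integers. -/
def Enough (k s : ℕ) : Prop := ∀ B₁ B₂ : Set ℕ, PosLower B₁ → PosLower B₂ →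
  ∀ᶠ n : ℕ in atTop, ∃ b₁ ∈ B₁, ∃ b₂ ∈ B₂, ∃ x : Fin s → ℕ, (∀ i, 0 < x i) ∧ n = b₁ + b₂ + ∑ i, x i ^ k

/-- For any set `B` of positive lower density, almost all numbers are the sum of an element of `B` and `s` `k`-th powers
of positive integers: for every `ε > 0` all but at most `ε n` of the numbers below `n`, for all large `n`. -/
def AlmostEnough (k s : ℕ) : Prop := ∀ B : Set ℕ, PosLower B → ∀ ε : ℝ, 0 < ε →
  ∀ᶠ n : ℕ in atTop, ({m : ℕ | m < n ∧ ¬ ∃ b ∈ B, ∃ x : Fin s → ℕ, (∀ i, 0 < x i) ∧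
    m = b + ∑ i, x i ^ k}.ncard : ℝ) ≤ ε * n

/-- The sums of `t` `k`-th powers of positive integers. -/
def Sums (k t : ℕ) : Set ℕ := {n | ∃ x : Fin t → ℕ, (∀ i, 0 < x i) ∧ n = ∑ i, x i ^ k}

lemma pos_succ {k s : ℕ} (h : Loc k s) : ∃ s', s = s' + 1 := by
  rcases s with _ | s
  · exfalso
    obtain ⟨x, hx⟩ := h 2 (by norm_num) 1
    rw [Finset.univ_eq_empty, Finset.sum_empty] at hx
    exact absurd hx (by decide)
  · exact ⟨s, rfl⟩

lemma enough_of {k s : ℕ} (hk : 1 ≤ k) (h : Loc k s) : Enough k s := by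
  obtain ⟨s, rfl⟩ := pos_succ h
  rintro B₁ B₂ ⟨c₁, hc₁, h₁⟩ ⟨c₂, hc₂, h₂⟩
  exact two_exact_pos hk h hc₁ hc₂ h₁ h₂

lemma almost_of {k s : ℕ} (hk : 1 ≤ k) (h : Loc k s) : AlmostEnough k s := by
  classical
  obtain ⟨s, rfl⟩ := pos_succ h
  rintro B ⟨c, hc, hB⟩ ε hε
  filter_upwards [dens_exact_pos hk h hc hB hε] with n hn
  refine le_trans ?_ hn
  have h2 : {m : ℕ | m < n ∧ ¬ ∃ b ∈ B, ∃ x : Fin (s + 1) → ℕ, (∀ i, 0 < x i) ∧ m = b + ∑ i, x i ^ k} =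
      (((range n).filter (· ∉ plusPos B k (s + 1)) : Finset ℕ) : Set ℕ) := by
    ext m
    simp [plusPos]
  rw [h2, Set.ncard_coe_finset]

lemma multiples {Q : ℕ} (hQ : 1 ≤ Q) : PosLower {n | Q ∣ n} := by
  refine ⟨1 / (2 * Q), by positivity, ?_⟩
  unfold LowerDensity
  filter_upwards [eventually_ge_atTop 1] with n hn
  have hQr : (0 : ℝ) < Q := by exact_mod_cast hQ
  have h1 : Set.InjOn (fun t : ℕ => Q * t) (range (n / Q + 1 - (if Q ∣ n then 1 else 0)) : Set ℕ) :=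
    fun a _ b _ hab => Nat.eq_of_mul_eq_mul_left hQ hab
  have h2 : (((range (n / Q + 1 - (if Q ∣ n then 1 else 0))).image (fun t : ℕ => Q * t) : Finset ℕ) : Set ℕ) ⊆
      {n | Q ∣ n} ∩ Set.Iio n := by
    intro y hy
    rw [coe_image] at hy
    obtain ⟨t, ht, rfl⟩ := hy
    rw [mem_coe, mem_range] at ht
    refine ⟨dvd_mul_right _ _, ?_⟩
    show Q * t < n
    split_ifs at ht with h
    · obtain ⟨e, rfl⟩ := h
      rw [Nat.mul_div_cancel_left _ hQ] at ht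
      exact Nat.mul_lt_mul_of_pos_left (by omega) hQ
    · have h3 : Q * t ≤ n := by
        calc Q * t ≤ Q * (n / Q) := Nat.mul_le_mul_left _ (by omega)
          _ ≤ n := Nat.mul_div_le n Q
      rcases h3.eq_or_lt with h4 | h4
      · exact absurd ⟨t, h4.symm⟩ h
      · exact h4
  have h3 := Set.ncard_le_ncard h2 ((Set.finite_Iio n).subset Set.inter_subset_right)
  rw [Set.ncard_coe_finset, card_image_of_injOn h1, card_range] at h3
  have h4 : (n : ℝ) ≤ 2 * Q * ((n / Q + 1 - (if Q ∣ n then 1 else 0) : ℕ) : ℝ) := by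
    have h5 : n ≤ 2 * Q * (n / Q + 1 - (if Q ∣ n then 1 else 0)) := by
      split_ifs with h
      · obtain ⟨e, rfl⟩ := h
        rw [Nat.mul_div_cancel_left _ hQ, Nat.add_sub_cancel]
        nlinarith
      · have h6 : n < Q * (n / Q + 1) := Nat.lt_mul_div_succ n hQ
        rw [Nat.sub_zero]
        nlinarith
    exact_mod_cast h5
  have h5 : ((n / Q + 1 - (if Q ∣ n then 1 else 0) : ℕ) : ℝ) ≤ (({n | Q ∣ n} ∩ Set.Iio n).ncard : ℝ) := by
    exact_mod_cast h3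
  rw [one_div_mul_eq_div, div_le_iff₀ (by positivity)]
  calc (n : ℝ) ≤ _ := h4
    _ ≤ 2 * Q * (({n | Q ∣ n} ∩ Set.Iio n).ncard : ℝ) := mul_le_mul_of_nonneg_left h5 (by positivity)
    _ = _ := by ring

lemma local_of {k s : ℕ} (h : Enough k s) : Loc k s := by
  intro Q hQ a
  obtain ⟨n₀, hn₀⟩ := eventually_atTop.1 (h _ _ (multiples hQ) (multiples hQ))
  obtain ⟨b₁, hb₁, b₂, hb₂, x, -, hx⟩ := hn₀ (a + Q * n₀) (by nlinarith)
  refine ⟨x, ?_⟩
  have h1 : (b₁ + b₂) + ∑ i, x i ^ k ≡ 0 + ∑ i, x i ^ k [MOD Q] :=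
    Nat.ModEq.add_right _ (Nat.modEq_zero_iff_dvd.2 (dvd_add hb₁ hb₂))
  rw [zero_add, ← hx] at h1
  refine h1.symm.trans ?_
  unfold Nat.ModEq
  rw [Nat.add_mul_mod_self_left]

lemma local_of_almost {k s : ℕ} (h : AlmostEnough k s) : Loc k s := by
  intro Q hQ a
  have hQr : (0 : ℝ) < Q := by exact_mod_cast hQ
  obtain ⟨n₀, hn₀⟩ := eventually_atTop.1 (h _ (multiples hQ) (1 / (2 * Q)) (by positivity))
  have h1 := hn₀ (Q * (n₀ + 1)) (by nlinarith)
  by_contra hcon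
  push Not at hcon
  have h2 : (((range (n₀ + 1)).image (fun t : ℕ => Q * t + a % Q) : Finset ℕ) : Set ℕ) ⊆
      {m : ℕ | m < Q * (n₀ + 1) ∧ ¬ ∃ b ∈ {n | Q ∣ n}, ∃ x : Fin s → ℕ, (∀ i, 0 < x i) ∧ m = b + ∑ i, x i ^ k} := by
    intro y hy
    rw [coe_image] at hy
    obtain ⟨t, ht, rfl⟩ := hy
    rw [mem_coe, mem_range] at ht
    have h3 := Nat.mod_lt a hQ
    refine ⟨?_, ?_⟩
    · show Q * t + a % Q < Q * (n₀ + 1)
      have h4 : Q * (t + 1) ≤ Q * (n₀ + 1) := Nat.mul_le_mul_left _ (by omega)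
      rw [mul_add, mul_one] at h4
      omega
    · rintro ⟨b, hb, x, -, hx⟩
      apply hcon x
      have h4 : b + ∑ i, x i ^ k ≡ 0 + ∑ i, x i ^ k [MOD Q] := Nat.ModEq.add_right _ (Nat.modEq_zero_iff_dvd.2 hb)
      rw [zero_add] at h4
      have hx' : b + ∑ i, x i ^ k = Q * t + a % Q := hx.symm
      rw [hx'] at h4
      refine h4.symm.trans ?_
      unfold Nat.ModEq
      rw [Nat.mul_add_mod, Nat.mod_mod]
  have h3 := Set.ncard_le_ncard h2 ((Set.finite_Iio (Q * (n₀ + 1))).subset fun m hm => hm.1)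
  rw [Set.ncard_coe_finset, card_image_of_injective _ (fun x y hxy => by
    have : Q * x = Q * y := Nat.add_right_cancel hxy
    exact Nat.eq_of_mul_eq_mul_left hQ this), card_range] at h3
  have h4 : ((n₀ + 1 : ℕ) : ℝ) ≤ 1 / (2 * Q) * ((Q * (n₀ + 1) : ℕ) : ℝ) := le_trans (by exact_mod_cast h3) h1
  have h5 : 1 / (2 * (Q : ℝ)) * ((Q * (n₀ + 1) : ℕ) : ℝ) = ((n₀ + 1 : ℕ) : ℝ) / 2 := by
    push_cast
    field_simp
  rw [h5] at h4
  have h6 : (0 : ℝ) < ((n₀ + 1 : ℕ) : ℝ) := by positivity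
  linarith

lemma sum_append {a b : ℕ} (y : Fin a → ℕ) (z : Fin b → ℕ) (k : ℕ) :
    ∑ i, Fin.append y z i ^ k = ∑ i, y i ^ k + ∑ i, z i ^ k := by
  rw [Fin.sum_univ_add]
  simp

lemma append_pos {a b : ℕ} {y : Fin a → ℕ} {z : Fin b → ℕ} (hy : ∀ i, 0 < y i) (hz : ∀ i, 0 < z i) :
    ∀ i, 0 < Fin.append y z i := by
  intro i
  refine Fin.addCases (fun j => ?_) (fun j => ?_) i
  · simpa using hy j
  · simpa using hz j

lemma sums_add {k a b m n : ℕ} (hm : m ∈ Sums k a) (hn : n ∈ Sums k b) : m + n ∈ Sums k (a + b) := by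
  obtain ⟨y, hy, rfl⟩ := hm
  obtain ⟨z, hz, rfl⟩ := hn
  exact ⟨Fin.append y z, append_pos hy hz, (sum_append y z k).symm⟩

lemma sums_one (k d : ℕ) : d ∈ Sums k d := ⟨fun _ => 1, fun _ => one_pos, by simp⟩

lemma sums_mono {k a b : ℕ} (hab : a ≤ b) (h : ∀ᶠ m : ℕ in atTop, m ∈ Sums k a) : ∀ᶠ m : ℕ in atTop, m ∈ Sums k b := by
  obtain ⟨d, rfl⟩ := Nat.exists_eq_add_of_le hab
  obtain ⟨m₀, hm₀⟩ := eventually_atTop.1 h
  filter_upwards [eventually_ge_atTop (m₀ + d)] with m hm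
  have h1 := sums_add (hm₀ (m - d) (by omega)) (sums_one k d)
  rwa [Nat.sub_add_cancel (by omega)] at h1

lemma all_of {k t s : ℕ} (hB : PosLower (Sums k t)) (h : Enough k s) : ∀ᶠ m : ℕ in atTop, m ∈ Sums k (2 * t + s) := by
  filter_upwards [h _ _ hB hB] with n hn
  obtain ⟨b₁, hb₁, b₂, hb₂, x, hx0, hx⟩ := hn
  have h1 := sums_add (sums_add hb₁ hb₂) (⟨x, hx0, rfl⟩ : ∑ i, x i ^ k ∈ Sums k s)
  rw [← hx, ← two_mul] at h1
  exact h1

lemma almost_all_of {k t s : ℕ} (hB : PosLower (Sums k t)) (h : AlmostEnough k s) (ε : ℝ) (hε : 0 < ε) :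
    ∀ᶠ n : ℕ in atTop, ({m : ℕ | m < n ∧ m ∉ Sums k (t + s)}.ncard : ℝ) ≤ ε * n := by
  filter_upwards [h _ hB ε hε] with n hn
  refine le_trans ?_ hn
  have h1 : {m : ℕ | m < n ∧ m ∉ Sums k (t + s)} ⊆
      {m : ℕ | m < n ∧ ¬ ∃ b ∈ Sums k t, ∃ x : Fin s → ℕ, (∀ i, 0 < x i) ∧ m = b + ∑ i, x i ^ k} := by
    rintro m ⟨hm, hms⟩
    refine ⟨hm, ?_⟩
    rintro ⟨b, hb, x, hx0, rfl⟩
    exact hms (sums_add hb ⟨x, hx0, rfl⟩)
  exact_mod_cast Set.ncard_le_ncard h1 ((Set.finite_Iio n).subset fun m hm => hm.1)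

/-- a subset of an exceptional set -/
lemma mono_of {P P' : ℕ → Prop} {η : ℝ} (h : ∀ᶠ n : ℕ in atTop, ({k : ℕ | k < n ∧ ¬ P k}.ncard : ℝ) ≤ η * n)
    (hP : ∀ k, P k → P' k) : ∀ᶠ n : ℕ in atTop, ({k : ℕ | k < n ∧ ¬ P' k}.ncard : ℝ) ≤ η * n := by
  filter_upwards [h] with n hn
  refine le_trans ?_ hn
  exact_mod_cast Set.ncard_le_ncard (fun k hk => ⟨hk.1, fun h => hk.2 (hP k h)⟩ :
    {k : ℕ | k < n ∧ ¬ P' k} ⊆ {k : ℕ | k < n ∧ ¬ P k}) ((Set.finite_Iio n).subset fun m hm => hm.1)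

/-- the same up to finitely many integers -/
lemma mono_ev {P P' : ℕ → Prop} {k₀ : ℕ} (h : ∀ η : ℝ, 0 < η → ∀ᶠ n : ℕ in atTop, ({k : ℕ | k < n ∧ ¬ P k}.ncard : ℝ) ≤ η * n)
    (hP : ∀ k, k₀ ≤ k → P k → P' k) {η : ℝ} (hη : 0 < η) : ∀ᶠ n : ℕ in atTop, ({k : ℕ | k < n ∧ ¬ P' k}.ncard : ℝ) ≤ η * n := by
  obtain ⟨n₁, hn₁⟩ := exists_nat_gt (2 * (k₀ : ℝ) / η)
  filter_upwards [h (η / 2) (by linarith), eventually_ge_atTop n₁] with n hn hn1
  have h1 : {k : ℕ | k < n ∧ ¬ P' k} ⊆ ((range k₀ : Finset ℕ) : Set ℕ) ∪ {k : ℕ | k < n ∧ ¬ P k} := by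
    rintro k ⟨hk, hk'⟩
    rcases Nat.lt_or_ge k k₀ with h2 | h2
    · left
      rw [mem_coe, mem_range]
      exact h2
    · exact Or.inr ⟨hk, fun h => hk' (hP k h2 h)⟩
  have h2 := (Set.ncard_le_ncard h1 ((Finset.finite_toSet _).union
    ((Set.finite_Iio n).subset fun m hm => hm.1))).trans (Set.ncard_union_le _ _)
  rw [Set.ncard_coe_finset, card_range] at h2
  have h3 : ({k : ℕ | k < n ∧ ¬ P' k}.ncard : ℝ) ≤ k₀ + ({k : ℕ | k < n ∧ ¬ P k}.ncard : ℝ) := by exact_mod_cast h2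
  have h4 : 2 * (k₀ : ℝ) ≤ η * n := by
    rw [div_lt_iff₀ hη] at hn₁
    have : (n₁ : ℝ) ≤ n := by exact_mod_cast hn1
    nlinarith
  linarith

/-- **Almost all exponents.** See the head of the file. -/
theorem result :
    -- (1) for almost all exponents `k ^ ε` powers are enough
    (∀ ε η : ℝ, 0 < ε → 0 < η → ∀ᶠ n : ℕ in atTop,
      ({k : ℕ | k < n ∧ ¬ (Enough k ⌊(k : ℝ) ^ ε⌋₊ ∧ AlmostEnough k ⌊(k : ℝ) ^ ε⌋₊)}.ncard : ℝ) ≤ η * n) ∧
    -- (2) prime exponents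
    (∀ ε : ℝ, 0 < ε → ∃ C : ℝ, ∀ N : ℕ, 2 ≤ N →
      ({l : ℕ | l ≤ N ∧ l.Prime ∧ ¬ (Enough l ⌊(l : ℝ) ^ ε⌋₊ ∧ AlmostEnough l ⌊(l : ℝ) ^ ε⌋₊)}.ncard : ℝ) ≤
        C * N / Real.log N ^ 2) ∧
    -- (3) the criterion
    (∀ ε : ℝ, 0 < ε → ∃ T k₀ : ℕ, ∀ k : ℕ, k₀ ≤ k → ∀ s : ℕ, (k : ℝ) ^ ε ≤ s →
      (∀ D t q : ℕ, D ∣ k → t < T → IsPrimePow q → D * t = Nat.totient q → 4 * D ≤ s) →
        Enough k s ∧ AlmostEnough k s) ∧
    -- (4) the converse
    (∀ k s D t q : ℕ, 4 ≤ k → t < k → D ∣ k → IsPrimePow q → D * t = Nat.totient q →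
      Enough k s ∨ AlmostEnough k s → D ≤ (s + 1) ^ t) ∧
    -- (5) sums of powers
    (∀ ε η : ℝ, 0 < ε → 0 < η → ∀ᶠ n : ℕ in atTop,
      ({k : ℕ | k < n ∧ ¬ ∀ t : ℕ, PosLower (Sums k t) →
        (∀ᶠ m : ℕ in atTop, m ∈ Sums k (2 * t + ⌊(k : ℝ) ^ ε⌋₊)) ∧
        ∀ δ : ℝ, 0 < δ → ∀ᶠ M : ℕ in atTop,
          ({m : ℕ | m < M ∧ m ∉ Sums k (t + ⌊(k : ℝ) ^ ε⌋₊)}.ncard : ℝ) ≤ δ * M}.ncard : ℝ) ≤ η * n) ∧
    -- (6) the bound `4 k`
    (∀ ε η : ℝ, 0 < ε → 0 < η → ∀ᶠ n : ℕ in atTop,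
      ({k : ℕ | k < n ∧ ¬ (PosLower (Sums k ⌊(2 - ε) * k⌋₊) → ∀ᶠ m : ℕ in atTop, m ∈ Sums k (4 * k))}.ncard : ℝ) ≤
        η * n) := by
  have hall : ∀ ε η : ℝ, 0 < ε → 0 < η → ∀ᶠ n : ℕ in atTop,
      ({k : ℕ | k < n ∧ ¬ (1 ≤ k ∧ Loc k ⌊(k : ℝ) ^ ε⌋₊)}.ncard : ℝ) ≤ η * n :=
    fun ε η hε hη => Pool.Agent.U416.GE.almost_all hε hη
  refine ⟨?_, ?_, ?_, ?_, ?_, ?_⟩
  · intro ε η hε hη
    exact mono_of (hall ε η hε hη) fun k hk => ⟨enough_of hk.1 hk.2, almost_of hk.1 hk.2⟩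
  · intro ε hε
    obtain ⟨C, -, h⟩ := Pool.Agent.U416.GE.primes hε
    refine ⟨C, fun N hN => le_trans ?_ (h N hN)⟩
    exact_mod_cast Set.ncard_le_ncard (fun l hl => ⟨hl.1, hl.2.1, fun h =>
      hl.2.2 ⟨enough_of hl.2.1.one_le h, almost_of hl.2.1.one_le h⟩⟩ :
      {l : ℕ | l ≤ N ∧ l.Prime ∧ ¬ (Enough l ⌊(l : ℝ) ^ ε⌋₊ ∧ AlmostEnough l ⌊(l : ℝ) ^ ε⌋₊)} ⊆
        {l : ℕ | l ≤ N ∧ l.Prime ∧ ¬ Loc l ⌊(l : ℝ) ^ ε⌋₊}) ((Set.finite_Iic N).subset fun m hm => hm.1)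
  · intro ε hε
    obtain ⟨T, k₀, h⟩ := Pool.Agent.U416.GE.crit hε
    refine ⟨T, max 1 k₀, fun k hk s hs hfree => ?_⟩
    have hk1 : 1 ≤ k := (le_max_left _ _).trans hk
    have hl := h k ((le_max_right _ _).trans hk) s hs hfree
    exact ⟨enough_of hk1 hl, almost_of hk1 hl⟩
  · intro k s D t q hk4 htk hDk hq hDt h
    refine Pool.Agent.U416.GE.conv hk4 htk hDk hq hDt ?_
    rcases h with h | h
    · exact local_of h
    · exact local_of_almost h
  · intro ε η hε hη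
    refine mono_of (hall ε η hε hη) fun k hk t hB => ?_
    exact ⟨all_of hB (enough_of hk.1 hk.2), almost_all_of hB (almost_of hk.1 hk.2)⟩
  · intro ε η hε hη
    have hnat := tendsto_natCast_atTop_atTop (R := ℝ)
    have e1 : ∀ᶠ x : ℝ in atTop, 1 / ε ≤ x ^ (1 / 2 : ℝ) := (tendsto_rpow_atTop (by norm_num)).eventually_ge_atTop _
    obtain ⟨k₀, hk₀⟩ := eventually_atTop.1 ((hnat.eventually e1).and (eventually_ge_atTop 1))
    refine mono_ev (k₀ := k₀) (fun η hη => hall (1 / 2) η (by norm_num) hη) (fun k hk hloc hB => ?_) hη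
    obtain ⟨h1, hk1⟩ := hk₀ k hk
    have hk0 : (0 : ℝ) < k := by exact_mod_cast hk1
    refine sums_mono ?_ (all_of hB (enough_of hloc.1 hloc.2))
    rcases le_or_gt ε 2 with h2 | h2
    · have h3 := Nat.floor_le (show (0 : ℝ) ≤ (2 - ε) * k from mul_nonneg (by linarith) hk0.le)
      have h4 := Nat.floor_le (show (0 : ℝ) ≤ (k : ℝ) ^ (1 / 2 : ℝ) by positivity)
      have h5 : (k : ℝ) ^ (1 / 2 : ℝ) * (k : ℝ) ^ (1 / 2 : ℝ) = k := by
        rw [← Real.rpow_add hk0]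
        norm_num
      have h6 : (k : ℝ) ^ (1 / 2 : ℝ) ≤ ε * k := by
        rw [div_le_iff₀ hε] at h1
        have h7 : 0 ≤ (k : ℝ) ^ (1 / 2 : ℝ) := by positivity
        calc (k : ℝ) ^ (1 / 2 : ℝ) = 1 * (k : ℝ) ^ (1 / 2 : ℝ) := (one_mul _).symm
          _ ≤ ((k : ℝ) ^ (1 / 2 : ℝ) * ε) * (k : ℝ) ^ (1 / 2 : ℝ) := mul_le_mul_of_nonneg_right h1 h7
          _ = ε * ((k : ℝ) ^ (1 / 2 : ℝ) * (k : ℝ) ^ (1 / 2 : ℝ)) := by ring
          _ = ε * k := by rw [h5]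
      have h7 : ((2 * ⌊(2 - ε) * (k : ℝ)⌋₊ + ⌊(k : ℝ) ^ (1 / 2 : ℝ)⌋₊ : ℕ) : ℝ) ≤ ((4 * k : ℕ) : ℝ) := by
        push_cast
        nlinarith
      exact_mod_cast h7
    · have h3 : ⌊(2 - ε) * (k : ℝ)⌋₊ = 0 := by
        apply Nat.floor_of_nonpos
        nlinarith
      rw [h3, mul_zero, zero_add]
      have h4 := Nat.floor_le (show (0 : ℝ) ≤ (k : ℝ) ^ (1 / 2 : ℝ) by positivity)
      have h5 : (k : ℝ) ^ (1 / 2 : ℝ) ≤ k := by
        calc (k : ℝ) ^ (1 / 2 : ℝ) ≤ (k : ℝ) ^ (1 : ℝ) :=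
              Real.rpow_le_rpow_of_exponent_le (by exact_mod_cast hk1) (by norm_num)
          _ = k := Real.rpow_one _
      have h6 : (⌊(k : ℝ) ^ (1 / 2 : ℝ)⌋₊ : ℝ) ≤ ((4 * k : ℕ) : ℝ) := by
        push_cast
        linarith
      exact_mod_cast h6

end Pool.Agent.Results.MP_ee77ae_nt.AlmostAllExponents
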