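import Mathlib
import Pool.Agent.U518.WS.V

/-!
# `k + [log₂ k] + 2` shifted `k`-th powers suffice for almost all shifts

We prove that, for almost all `θ ∈ ℝ^s` with `s ≥ k + [log₂ k] + 2`, every large natural number is the
integer part of a sum `(x₁ + θ₁)^k + … + (x_s + θ_s)^k`, with the expected order of magnitude for the number
of solutions. The proof starts from `k + 1` summands, for which the set of exceptional numbers has a power
saving, and shows that each further random shift squares the density of the exceptional set.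
-/

set_option autoImplicit false

namespace Pool.Agent.Results.MP_ee77ae_nt.FewShiftedPowers

open MeasureTheory Filter

/-- **Waring's problem with shifts in `k + [log₂ k] + 2` variables.** Let `k ≥ 2` and
`s ≥ k + [log₂ k] + 2`.

(1) There is `c > 0` such that for almost all `θ ∈ ℝ^s` (Lebesgue measure) every large natural number `n`
has at least `c n^(s/k - 1)` representations `n = ⌊(x₁ + θ₁)^k + … + (x_s + θ_s)^k⌋` with natural numbers
`x_i` such that `x_i + θ_i > 0`.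

(2) For `0 ≤ τ < (2^(s-k-1) - k) / (k (2^(s-k-1) + 1))` there is `c > 0` such that for almost all `θ`, for all
large real numbers `N` and all `δ ≥ N^(-τ)` the inequality `|(x₁ + θ₁)^k + … + (x_s + θ_s)^k - N| < δ` has
at least `c δ N^(s/k - 1)` solutions in natural numbers `x_i` with `x_i + θ_i > 0`. -/
theorem result (k s : ℕ) (hk : 2 ≤ k) (hs : k + Nat.log 2 k + 2 ≤ s) :
    (∃ c : ℝ, 0 < c ∧ ∀ᵐ θ : Fin s → ℝ, ∀ᶠ n : ℕ in atTop, ∃ A : Finset (Fin s → ℕ),
      (∀ x ∈ A, (∀ i, 0 < (x i : ℝ) + θ i) ∧ ⌊∑ i, ((x i : ℝ) + θ i) ^ k⌋ = (n : ℤ)) ∧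
        c * (n : ℝ) ^ ((s : ℝ) / k - 1) ≤ (A.card : ℝ)) ∧
    (∀ τ : ℝ, 0 ≤ τ → τ < ((2 : ℝ) ^ (s - k - 1) - k) / (k * (2 ^ (s - k - 1) + 1)) →
      ∃ c : ℝ, 0 < c ∧ ∀ᵐ θ : Fin s → ℝ, ∀ᶠ N : ℝ in atTop,
        ∀ δ : ℝ, N ^ (-τ) ≤ δ → ∃ A : Finset (Fin s → ℕ),
          (∀ x ∈ A, (∀ i, 0 < (x i : ℝ) + θ i) ∧ |∑ i, ((x i : ℝ) + θ i) ^ k - N| < δ) ∧
            c * δ * N ^ ((s : ℝ) / k - 1) ≤ (A.card : ℝ)) := by
  obtain ⟨j, rfl⟩ : ∃ j, s = k + 1 + j := ⟨s - (k + 1), by omega⟩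
  have hj : k < 2 ^ j := by
    have h1 : Nat.log 2 k < j := by omega
    exact Nat.lt_pow_of_log_lt (by norm_num) h1
  have hsub : k + 1 + j - k - 1 = j := by omega
  rw [hsub]
  exact ⟨Pool.Agent.U518.WS.few_floor k j hk hj, fun τ hτ0 hτ => Pool.Agent.U518.WS.few_main k j hk τ hτ0 hτ⟩

end Pool.Agent.Results.MP_ee77ae_nt.FewShiftedPowers
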