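import Mathlib
import Pool.Agent.U914.WP.HE

/-!
# Waring's problem for almost all polynomials, with all but one of the `2k + 1` variables from arbitrary sets

Let `k ≥ 2`, let `a > 0` be fixed (for instance `a = 1`), and consider the integer sequence
`⌊f(1)⌋, ⌊f(2)⌋, …` where `f(x) = a x ^ k + θ_{k-1} x ^ (k-1) + … + θ_1 x`. We prove that for almost all
`θ ∈ ℝ ^ (k-1)` the number of representations `n = ⌊f(b₁)⌋ + … + ⌊f(b_{2k})⌋ + ⌊f(x)⌋` with the variables `b_i`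
restricted to arbitrary finite sets is given by the expected main term with a power saving, uniformly in the sets.
So all but one of the variables may be restricted to arbitrary sets with at least `X ^ (1 - τ)` elements up to `X`.
-/

set_option autoImplicit false

namespace Pool.Agent.Results.MP_ee77ae_nt.RelativeToSets

open MeasureTheory Filter

/-- **The relative asymptotic formula.** Let `k ≥ 2` and `a > 0`. There is `τ > 0` such that for almost all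
`θ ∈ ℝ ^ (k-1)` (Lebesgue measure) the polynomial `f(x) = a x ^ k + θ_{k-1} x ^ (k-1) + … + θ_1 x` has these two
properties.

* For all large `n` and all finite sets `B₁, …, B_{2k}` of positive integers `b` with `4 k a b ^ k ≤ n`, the number
  of representations `n = ⌊f(b₁)⌋ + … + ⌊f(b_{2k})⌋ + ⌊f(x)⌋` with `b_i ∈ B_i` and a positive integer `x` is
  `1 / (k a ^ (1/k)) * ∑ (n - a (b₁ ^ k + … + b_{2k} ^ k)) ^ (1/k - 1)`, the sum over all `b_i ∈ B_i`, with an error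
  of at most `n ^ (1 + 1/k - τ)`.
* For all sets `A₁, …, A_{2k}` of natural numbers such that each `A_i` has at least `X ^ (1 - τ)` elements in
  `[1, X]` for all large `X`, every large `n` is `⌊f(b₁)⌋ + … + ⌊f(b_{2k})⌋ + ⌊f(x)⌋` with positive `b_i ∈ A_i` and
  a positive integer `x`. -/
theorem result (k : ℕ) (hk : 2 ≤ k) (a : ℝ) (ha : 0 < a) :
    ∃ τ : ℝ, 0 < τ ∧ ∀ᵐ θ : Fin (k - 1) → ℝ,
      (∀ᶠ n : ℕ in atTop, ∀ B : Fin (2 * k) → Finset ℕ,
        (∀ i, ∀ b ∈ B i, 0 < b ∧ 4 * k * (a * (b : ℝ) ^ k) ≤ n) →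
        |(({p : (Fin (2 * k) → ℕ) × ℕ | (∀ i, p.1 i ∈ B i) ∧ 0 < p.2 ∧
            ∑ i, ⌊a * (p.1 i : ℝ) ^ k + ∑ j : Fin (k - 1), θ j * (p.1 i : ℝ) ^ ((j : ℕ) + 1)⌋ +
              ⌊a * (p.2 : ℝ) ^ k + ∑ j : Fin (k - 1), θ j * (p.2 : ℝ) ^ ((j : ℕ) + 1)⌋ = (n : ℤ)}.ncard : ℕ) : ℝ) -
          1 / (k * a ^ ((1 : ℝ) / k)) *
            ∑ b ∈ Fintype.piFinset B, ((n : ℝ) - a * ∑ i, (b i : ℝ) ^ k) ^ ((1 : ℝ) / k - 1)| ≤
          (n : ℝ) ^ (1 + 1 / (k : ℝ) - τ)) ∧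
      (∀ A : Fin (2 * k) → Set ℕ,
        (∀ i, ∀ᶠ X : ℕ in atTop, (X : ℝ) ^ (1 - τ) ≤ ((A i ∩ Set.Icc 1 X).ncard : ℝ)) →
        ∀ᶠ n : ℕ in atTop, ∃ b : Fin (2 * k) → ℕ, ∃ x : ℕ, (∀ i, b i ∈ A i ∧ 0 < b i) ∧ 0 < x ∧
          ∑ i, ⌊a * (b i : ℝ) ^ k + ∑ j : Fin (k - 1), θ j * (b i : ℝ) ^ ((j : ℕ) + 1)⌋ +
            ⌊a * (x : ℝ) ^ k + ∑ j : Fin (k - 1), θ j * (x : ℝ) ^ ((j : ℕ) + 1)⌋ = (n : ℤ)) := by
  obtain ⟨d, rfl⟩ : ∃ d, k = d + 1 := ⟨k - 1, by omega⟩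
  obtain ⟨τ, hτ, h⟩ := Pool.Agent.U914.WP.relative d (by omega) a ha
  have hc0 : 0 < min (τ / 4) 1 := by positivity
  refine ⟨min (τ / 4) 1, hc0, ?_⟩
  have hc1 : min (τ / 4) 1 ≤ 1 := min_le_right _ _
  have hc4 : min (τ / 4) 1 ≤ τ / 4 := min_le_left _ _
  filter_upwards [h] with θ h
  refine ⟨?_, ?_⟩
  · filter_upwards [h, eventually_ge_atTop 1] with n hn hn1 B hB
    have hn0 : (0 : ℝ) < n := by exact_mod_cast hn1
    have h1 := hn B hB
    have h2 : ∑ b ∈ Fintype.piFinset B, Pool.Agent.U914.WP.rh (d + 1) a (n - a * ∑ i, (b i : ℝ) ^ (d + 1)) =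
        1 / (((d + 1 : ℕ) : ℝ) * a ^ ((1 : ℝ) / ((d + 1 : ℕ) : ℝ))) *
          ∑ b ∈ Fintype.piFinset B, ((n : ℝ) - a * ∑ i, (b i : ℝ) ^ (d + 1)) ^ ((1 : ℝ) / ((d + 1 : ℕ) : ℝ) - 1) := by
      rw [Finset.mul_sum]
      apply Finset.sum_congr rfl
      intro b hb
      rw [Fintype.mem_piFinset] at hb
      apply Pool.Agent.U914.WP.rh_eq (d + 1) (by omega) a _ ha
      have hk0 : (0 : ℝ) < ((d + 1 : ℕ) : ℝ) := by positivity
      have h4 : ∑ i, (a * (b i : ℝ) ^ (d + 1)) ≤ ∑ _i : Fin (2 * (d + 1)), (n : ℝ) / (4 * ((d + 1 : ℕ) : ℝ)) := by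
        apply Finset.sum_le_sum
        intro i _
        rw [le_div_iff₀ (by positivity)]
        have := (hB i _ (hb i)).2
        linarith
      rw [Finset.sum_const, Finset.card_univ, Fintype.card_fin, nsmul_eq_mul, ← Finset.mul_sum] at h4
      have h5 : ((2 * (d + 1) : ℕ) : ℝ) * ((n : ℝ) / (4 * ((d + 1 : ℕ) : ℝ))) = n / 2 := by
        push_cast
        field_simp
        ring
      rw [h5] at h4
      linarith
    rw [h2] at h1
    refine le_trans h1 ?_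
    apply Real.rpow_le_rpow_of_exponent_le (by exact_mod_cast hn1)
    linarith
  · intro A hA
    exact Pool.Agent.U914.WP.rel_sets d (by omega) a ha τ hτ θ h (min (τ / 4) 1) hc1 (by linarith) A hA

end Pool.Agent.Results.MP_ee77ae_nt.RelativeToSets
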