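import Pool.Agent.U160.WP.Int
import Pool.Agent.U160.WP.PkgNS

/-!
# Waring's problem for the integers `⌊(n + {P(n)})^k⌋`

For almost every real polynomial `P` of large degree the `k`-th powers are replaced by the integers
`a_n = ⌊(n + {P(n)})^k⌋`, `n^k ≤ a_n < (n+1)^k`.  For `k ≥ 2` every large integer is a sum of exactly `s` terms `a_n`
if and only if `s ≥ k + 1`, with the asymptotic formula for the number of representations.
-/

set_option autoImplicit false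

namespace Pool.Agent.Results.MP_ee77ae_nt.RoundedPowers

open MeasureTheory ProbabilityTheory Finset Filter Topology

/-- the fractional part of `x_1 n + x_2 n^2 + ... + x_r n^r` (`x_j` is `x (j-1)`) -/
noncomputable def frac {r : ℕ} (x : Fin r → ℝ) (n : ℕ) : ℝ := Int.fract (∑ j : Fin r, x j * (n : ℝ) ^ (j.val + 1))

/-- the natural number `⌊(n + θ(n))^k⌋` -/
noncomputable def term (θ : ℕ → ℝ) (k n : ℕ) : ℕ := ⌊((n : ℝ) + θ n) ^ k⌋₊

/-- the number of representations of `N` as a sum of `s` terms: the number of `n ∈ {1,2,...}^s` with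
`∑ term(n_i) = N` -/
noncomputable def reps (θ : ℕ → ℝ) (k s N : ℕ) : ℕ :=
  {n : Fin s → ℕ | (∀ i, 1 ≤ n i) ∧ ∑ i, term θ k (n i) = N}.ncard

/-- every large integer is a sum of exactly `s` terms -/
def Enough (θ : ℕ → ℝ) (k s : ℕ) : Prop := ∃ N₀ : ℕ, ∀ N : ℕ, N₀ ≤ N →
  ∃ n : Fin s → ℕ, (∀ i, 1 ≤ n i) ∧ ∑ i, term θ k (n i) = N

/-- the asymptotic formula for the number of representations -/
def Asymptotic (θ : ℕ → ℝ) (k s : ℕ) : Prop :=
  Tendsto (fun N : ℕ => (reps θ k s N : ℝ) / (N : ℝ) ^ ((s : ℝ) / k - 1)) atTop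
    (𝓝 (Real.Gamma (1 + 1 / k) ^ s / Real.Gamma ((s : ℝ) / k)))

theorem reps_eq {θ : ℕ → ℝ} (hθ : ∀ n, 1 ≤ n → 0 ≤ θ n) (k s N : ℕ) :
    {n : Fin s → ℕ | (∀ i, 1 ≤ n i) ∧ ∑ i, term θ k (n i) = N} = Pool.Agent.U160.WP.solI θ k s N := by
  ext n
  unfold Pool.Agent.U160.WP.solI
  simp only [Set.mem_ofPred_eq]
  refine and_congr_right fun h1 => ?_
  have h2 : ∀ i, ((term θ k (n i) : ℕ) : ℤ) = ⌊((n i : ℝ) + θ (n i)) ^ k⌋ := by
    intro i
    unfold term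
    exact Int.natCast_floor_eq_floor (pow_nonneg (by have := hθ (n i) (h1 i); positivity) k)
  rw [← sum_congr rfl fun i _ => h2 i]
  constructor
  · intro h; exact_mod_cast h
  · intro h; exact_mod_cast h

theorem enough_mono {θ : ℕ → ℝ} {k s : ℕ} (h : Enough θ k s) : Enough θ k (s + 1) := by
  obtain ⟨N₀, h0⟩ := h
  refine ⟨N₀ + term θ k 1, fun N hN => ?_⟩
  obtain ⟨n, h1, h2⟩ := h0 (N - term θ k 1) (by omega)
  refine ⟨Fin.cons 1 n, fun i => ?_, ?_⟩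
  · refine Fin.cases ?_ (fun j => ?_) i
    · simp
    · simpa using h1 j
  · rw [Fin.sum_univ_succ]
    simp only [Fin.cons_zero, Fin.cons_succ]
    omega

theorem enough_of_asy {θ : ℕ → ℝ} (hθ : ∀ n, 1 ≤ n → 0 ≤ θ n) {k s : ℕ} (hk : 1 ≤ k) (hs : k + 1 ≤ s)
    (h : Tendsto (fun N : ℕ => ((Pool.Agent.U160.WP.solI θ k s N).ncard : ℝ) / (N : ℝ) ^ ((s : ℝ) / k - 1)) atTop
      (𝓝 (Pool.Agent.U160.WP.GG k s))) : Enough θ k s := by
  have h0 := Pool.Agent.U160.WP.GG_pos hk hs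
  obtain ⟨N₀, hN₀⟩ := eventually_atTop.1 (h.eventually (lt_mem_nhds h0))
  refine ⟨N₀, fun N hN => ?_⟩
  by_contra hne
  have h1 := hN₀ N hN
  have h2 : Pool.Agent.U160.WP.solI θ k s N = ∅ := by
    rw [← reps_eq hθ]
    ext n
    simp only [Set.mem_ofPred_eq, Set.mem_empty_iff_false, iff_false]
    exact fun hn => hne ⟨n, hn⟩
  rw [h2] at h1
  simp at h1

theorem asy_of {θ : ℕ → ℝ} (hθ : ∀ n, 1 ≤ n → 0 ≤ θ n) {k s : ℕ}
    (h : Tendsto (fun N : ℕ => ((Pool.Agent.U160.WP.solI θ k s N).ncard : ℝ) / (N : ℝ) ^ ((s : ℝ) / k - 1)) atTop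
      (𝓝 (Pool.Agent.U160.WP.GG k s))) : Asymptotic θ k s := by
  unfold Asymptotic reps
  simp_rw [reps_eq hθ]
  exact h

theorem not_enough {θ : ℕ → ℝ} (hθ : ∀ n, 1 ≤ n → 0 ≤ θ n) {k s : ℕ} (hk : 2 ≤ k) (hs : s ≤ k) :
    ¬ Enough θ k s := by
  rintro ⟨N₀, h0⟩
  obtain ⟨N, h1, h2⟩ := Pool.Agent.U160.WP.t_NS k s hk hs (term θ k) (fun n hn => by
    unfold term
    apply Nat.le_floor
    push_cast
    exact pow_le_pow_left₀ (by positivity) (by linarith [hθ n hn]) k) N₀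
  exact h2 (h0 N h1)

/-- **Waring's problem for rounded powers of perturbed integers.** -/
theorem result :
    (∀ r : ℕ, ∀ᵐ x : Fin r → ℝ, ∀ k : ℕ, 2 ≤ k → 2 * (k + 1) ^ 2 ≤ r →
      (∀ s : ℕ, Enough (frac x) k s ↔ k + 1 ≤ s) ∧
      (∀ s : ℕ, k + 1 ≤ s → 2 * (k + 1) * s ≤ r → Asymptotic (frac x) k s)) ∧
    (∀ (Ω : Type) [MeasurableSpace Ω] (P : Measure Ω) [IsProbabilityMeasure P] (X : ℕ → Ω → ℝ),
      (∀ n, Measurable (X n)) → iIndepFun X P → (∀ n, P.map (X n) = volume.restrict (Set.Icc 0 1)) →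
      ∀ᵐ ω ∂P, ∀ k : ℕ, 2 ≤ k → ∀ s : ℕ,
        (Enough (fun n => X n ω) k s ↔ k + 1 ≤ s) ∧ (k + 1 ≤ s → Asymptotic (fun n => X n ω) k s)) := by
  have hmain : ∀ θ : ℕ → ℝ, (∀ n, 1 ≤ n → 0 ≤ θ n) → ∀ k : ℕ, 2 ≤ k → Enough θ k (k + 1) →
      ∀ s : ℕ, Enough θ k s ↔ k + 1 ≤ s := by
    intro θ hθ k hk h s
    constructor
    · intro hE
      by_contra hs
      exact not_enough hθ hk (by omega) hE
    · intro hs
      obtain ⟨j, rfl⟩ := Nat.exists_eq_add_of_le hs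
      clear hs
      induction j with
      | zero => exact h
      | succ j ih => exact enough_mono ih
  refine ⟨fun r => ?_, ?_⟩
  · have h1 : ∀ᵐ x : Fin r → ℝ, ∀ k s : ℕ, 1 ≤ k → k + 1 ≤ s → 2 * (k + 1) * s ≤ r →
        Tendsto (fun N : ℕ => ((Pool.Agent.U160.WP.solI (Pool.Agent.U160.VP.frac x) k s N).ncard : ℝ) /
          (N : ℝ) ^ ((s : ℝ) / k - 1)) atTop (𝓝 (Pool.Agent.U160.WP.GG k s)) := by
      rw [ae_all_iff]; intro k
      rw [ae_all_iff]; intro s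
      by_cases h : 1 ≤ k ∧ k + 1 ≤ s ∧ 2 * (k + 1) * s ≤ r
      · obtain ⟨hk, hs, hr⟩ := h
        have h1 := Pool.Agent.U160.VP.t_R2 r (fun θ => Tendsto (fun N : ℕ =>
          ((Pool.Agent.U160.WP.solI θ k s N).ncard : ℝ) / (N : ℝ) ^ ((s : ℝ) / k - 1)) atTop
          (𝓝 (Pool.Agent.U160.WP.GG k s))) (by
            have := Pool.Agent.U160.VP.cube_prob r
            refine Pool.Agent.U160.WP.int_asy_kind k s hk hs (Fin r → ℝ)
              (volume.restrict (Pool.Agent.U160.VP.cube r)) (fun n x => Pool.Agent.U160.VP.frac x n)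
              (fun n => Pool.Agent.U160.VP.frac_meas n) ?_
            have h2 := Pool.Agent.U160.VP.frac_kind r (2 * (k + 1) * s) hr
            rwa [Pool.Agent.U160.WP.law_unif] at h2)
        filter_upwards [h1] with x hx _ _ _ using hx
      · exact Eventually.of_forall fun x h1 h2 h3 => absurd ⟨h1, h2, h3⟩ h
    filter_upwards [h1] with x hx k hk hr
    have hθ : ∀ n, 1 ≤ n → 0 ≤ frac x n := fun n _ => Int.fract_nonneg _
    refine ⟨hmain _ hθ k hk (enough_of_asy hθ (by omega) le_rfl (hx k (k + 1) (by omega) le_rfl ?_)),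
      fun s hs hr' => asy_of hθ (hx k s (by omega) hs hr')⟩
    calc 2 * (k + 1) * (k + 1) = 2 * (k + 1) ^ 2 := by ring
      _ ≤ r := hr
  · intro Ω _ P _ X hX hind hlaw
    have hu : ∀ᵐ ω ∂P, ∀ n, 0 ≤ X n ω := by
      rw [ae_all_iff]
      intro n
      have h1 : ∀ᵐ x ∂((volume : Measure ℝ).restrict (Set.Icc 0 1)), x ∈ Set.Icc (0 : ℝ) 1 :=
        ae_restrict_mem measurableSet_Icc
      rw [← hlaw n] at h1
      filter_upwards [ae_of_ae_map (hX n).aemeasurable h1] with ω h using h.1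
    have h1 : ∀ᵐ ω ∂P, ∀ k s : ℕ, 1 ≤ k → k + 1 ≤ s →
        Tendsto (fun N : ℕ => ((Pool.Agent.U160.WP.solI (fun n => X n ω) k s N).ncard : ℝ) /
          (N : ℝ) ^ ((s : ℝ) / k - 1)) atTop (𝓝 (Pool.Agent.U160.WP.GG k s)) := by
      rw [ae_all_iff]; intro k
      rw [ae_all_iff]; intro s
      by_cases h : 1 ≤ k ∧ k + 1 ≤ s
      · filter_upwards [Pool.Agent.U160.WP.int_asy_kind k s h.1 h.2 Ω P X hX
          (Pool.Agent.U160.VP.kind_of_iInd P X Pool.Agent.U160.WP.unif hX hind hlaw)] with ω hω _ _ using hω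
      · exact Eventually.of_forall fun x h1 h2 => absurd ⟨h1, h2⟩ h
    filter_upwards [hu, h1] with ω hω hx k hk s
    have hθ : ∀ n, 1 ≤ n → 0 ≤ X n ω := fun n _ => hω n
    exact ⟨hmain _ hθ k hk (enough_of_asy hθ (by omega) le_rfl (hx k (k + 1) (by omega) le_rfl)) s,
      fun hs => asy_of hθ (hx k s (by omega) hs)⟩

end Pool.Agent.Results.MP_ee77ae_nt.RoundedPowers
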